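import Mathlib
import Pool.Agent.H855.HG.PowVar

/-!
# The variational Hodge conjecture for **all fibre powers** of a family and the varieties of CM type: one
small exceptional space, read off from one fibre

Let `π : 𝒴 → S` be a smooth projective morphism. Let `t` be **any** point of `S`, and let `Y` be the
cohomology of the fibre `𝒴_t`. For all `s` let `N s` be the space of the global sections of the
local systems `R^m π^s_* ℚ`, all `m`, of the fibre power `𝒴^s/S`. By the theorem of the fixed part
the evaluation at `t` makes it a rational Hodge substructure of the cohomology of the power
`(𝒴_t)^s` (`IsSubstructure`), and the Hodge structure of `N s` does not depend on `t`. Let `X` be a
smooth projective complex variety of CM type. We consider the families `X^r × 𝒴^s/S`.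

A function `x` on the complex embeddings of a field is odd if `x (conj φ) = - x φ`. A CM type `Φ` of
a CM field is the same thing as the odd function `x` with the value `1` on `Φ` and `- 1` on the
conjugate embeddings.

**Types.** Let `Y` be a smooth projective complex variety. The Hodge operator on its cohomology is
the multiplication by `p - q` on `H^(p, q)` (`HodgeSpace`). A vector `w` of `H(Y, ℂ)` has the types
`d` if for each automorphism `σ` of the field `ℂ` the conjugate `σ w` (the conjugate of the
coordinates in a rational basis) is a sum of classes of types `(p, q)` with `p - q = d σ`
(`HasTypes`). These vectors generate the part of CM type of the cohomology (`cmPart`). The types of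
a rational Hodge class are `d = 0`.

**The varieties `X`.** Let `x j` be integral odd functions on the complex embeddings of CM fields `L
j`, `j` in a finite set. Let `X` be a smooth projective complex variety of CM type, that is with a
commutative Mumford-Tate group; this means that `H(X, ℂ)` is generated by vectors with types
(`IsOfCMType`). We suppose that for all vectors with types `d` a multiple of `d` is a sum `σ ↦ ∑ m
(j, ψ) * x j (σ ψ)` over the embeddings `ψ` of the fields `L j` (`IsGeneratedBy`). For instance `X`
can be **any** abelian variety isogenous to a product of powers of the abelian varieties of CM types
`(L j, Φ j)`, or a variety whose cohomology is built from the cohomology of such abelian varieties,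
like the Fermat hypersurfaces, or K3 surfaces with complex multiplication. **Every** `X` of CM type
is obtained in this way from suitable CM fields. The Hodge classes on `X` can be exotic (not
polynomials in divisor classes).

**The space of the characters.** Let `T` be the matrix of the Hodge operator of `Y` in a rational
basis, and let `g` be the smallest complex space of matrices which contains all conjugates `σ⁻¹ T`
and the commutators of its elements (`lie`): **the Lie algebra of the Hodge group of `Y`** (with
complex coefficients). Let `V` be the space of the rational functions `σ ↦ l (σ⁻¹ T)` on the
automorphisms `σ` of `ℂ`, where `l` is a linear function on the matrices which is zero on the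
commutators of elements of `g` (`charSpace`). For a CM field `E` let `V(E)` be the space of the odd
real functions `f` on the complex embeddings of `E` such that for all embeddings `φ` the function `σ
↦ f (σ φ)` is in `V` (`excSpace`): **the exceptional space of `E`**; it depends only on the Hodge
structure of `Y` and on `E`.

**The theorem.** Let `Y` be the Hodge structure of the fibre at **any** point `t`, and `d = dim V`.

1. The exceptional spaces are small (`CharactersAreSmall`): **`d + dim [g, g] ≤ dim g`**, so `d` is
   at most the dimension of the center of the Hodge group of `Y`; `dim V(E) ≤ d` for all CM fields
   `E`; and there are at most `d` pairwise unrelated CM fields `E i` with `V(E i) ≠ 0`, more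
   precisely `∑ m i ≤ d`, where `m i` is a lower bound for the dimensions of the nonzero stable
   spaces of odd rational functions on the embeddings of `E i` (`IsLowerBound`). (Two fields are
   unrelated if there are no nonzero equivariant maps between their odd functions.)
2. Let `x j` be integral odd functions on the embeddings of CM fields `L j` such that **no nonzero
   vector of the spaces `V(L j)` is a combination of the `x j`** (`ForAllOutside`), and let `X` be
   **any** variety of CM type whose types are generated by the `x j`. Then for **all `r` and `s`**
   * the global sections for `X^r × 𝒴^s/S` which are Hodge classes are exactly the sums of products
     of Hodge classes on `X^r` and global sections for `𝒴^s/S` which are Hodge classes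
     (`FlatOnAllPowers`);
   * let the Hodge conjecture be true for all the powers `X^r`. Then the global sections for `X^r ×
     𝒴^s/S` which are algebraic on the fibre at a point are exactly the sums of products of Hodge
     classes on `X^r` and global sections for `𝒴^s/S` which are algebraic on the fibre at this
     point, and **the variational Hodge conjecture is true for all the families `X^r × 𝒴^s/S` if and
     only if it is true for all the families `𝒴^s/S`** (`VariationalOnAllPowers`).

A vector `v` on the embeddings of a field `E` is a combination of the `x j` (`IsComb`) if it is the
sum of the images of the `x j` under equivariant maps: `v φ = ∑ t φ (j, ψ) * x j ψ` with rational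
numbers `t φ (j, ψ)` which are invariant under the automorphisms of `ℂ`, odd in `ψ`, and zero if the
fields `E` and `L j` are unrelated.

**Consequences.** The Hodge conjecture is true for all powers of `X` if `X` is for instance a
product of elliptic curves with complex multiplication, or a simple abelian variety of CM type of
prime dimension. The point `t` can be chosen: the exceptional spaces of any one fibre are
sufficient.

* If the Hodge group of `Y` is semisimple then `g = [g, g]`, `d = 0` and there are no exceptions
  (this case is known for Hodge classes: Imai, Hazama).
* If `E` is a CM field such that the odd functions on its embeddings are irreducible and `[E : ℚ] >
  2 d` then `V(E) = 0`: there is no condition for the `X` with complex multiplication by `E`. For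
  instance, if `d = 1`, this is true for all CM fields `E` which do not contain an imaginary
  quadratic field.
* If the odd functions on the embeddings of `E` are absolutely irreducible, the condition for `X`
  with the CM type `x` of `E` is that `x` is not in `V(E)`.

**Relation.** The result `TimesCMVarieties` on this page is about `X × 𝒴/S` only, for one family:
there is a finite set of exceptional vectors, whose number is bounded by the dimension of the fixed
part. For the fibre powers this gives infinitely many exceptional vectors. Here there is one space
of finite dimension for all fibre powers, bounded by the center of the Hodge group of one fibre;
neither theorem contains the other one. The result `AllPowersWithCM` on MP_0da4e0_ag has the same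
exceptional spaces, for absolute Hodge classes on one variety.

The framework (`FamilyTimes`): the intersection form of `X^r`, the algebraic classes on `X^r` and
the global sections whose values on the fibres of `𝒴^s` and `X^r × 𝒴^s` are algebraic, with products
and contractions with the algebraic classes on `X^r` (push-forward of products). The intersection
form is nondegenerate on the Hodge classes on `X^r` (`IsPerfect`; Lefschetz, Hodge and Riemann).

The proof. A vector `w ≠ 0` of the cohomology of `Y^s` with types `d` is an eigenvector of the
derivations given by the conjugates `σ⁻¹ T` (`deriv`, `pow_op`), hence of the derivations given by
all elements of `g`, and the eigenvalue is a linear function `l` of the element of `g` which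
vanishes on the commutators; so `d σ = l (σ⁻¹ T)` is in `V` (`type_mem_charSpace`). The space `V` is
stable under translations (`translates_charSpace`). Choose automorphisms `σ_k` such that the classes
of the `σ_k⁻¹ T` form a basis of the space generated by the classes of all `σ⁻¹ T` in `g / [g, g]`;
a function in `V` is determined by its values at the `σ_k` (`finrank_charQ`). The power `X^r` is of
CM type and generated by the `x j` (`span_pow`).

Take a basis `e k` of `H(X^r, ℂ)` of vectors with types `d k`, and write a Hodge class on `X^r ×
Y^s` as `∑ e k ⊗ y k`. Since it is rational its conjugates are the same class `∑ σ (e k) ⊗ σ (y k)`,
so that the `y k` have the types `- d k` (`kunneth`). Some multiple of `d k` is a sum of values `x j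
(σ ψ)`; since the functions `x j` are odd, `- d k` is the value of an odd relation with rational
coefficients. If it is not zero there is a vector `v ≠ 0` on the embeddings of one of the fields `L
j` whose translates are combinations of the translates of `- d k` (`exists_vector`), so that `v` is
in `V(L j)`, and `v` is a combination of the `x j` (`isComb_of`), a contradiction. So `d k = 0` or
`y k = 0` for all `k`, and the class is a sum of products of Hodge classes. The global
sections for `𝒴^s/S`: `type_mem_of_sub`, `hodgeOfProducts_sub`, `variationalOnProducts`. The sizes: `f ↦ (σ ↦ f (σ φ))` is an injective map from `V(E)` to `V`
(`finrank_excSpace`), and for pairwise unrelated fields the images are independent (`sum_le`).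
-/

set_option autoImplicit false

namespace Pool.Agent.Results.MP_e9c0f3_ag.AllPowersWithCM

open NumberField Pool.Agent.H855.HG

/-- **Let `Y` be the cohomology of one fibre of a smooth projective family `𝒴/S`. For all varieties `X` of CM
type outside of the exceptional spaces of `Y`, whose dimensions are at most the dimension of the center of
the Hodge group of `Y`: the global sections for all the families `X^r × 𝒴^s/S` which are Hodge classes are
sums of products, and if the Hodge conjecture is true for the powers of `X`, the variational Hodge
conjecture is true for all these families if and only if it is true for all fibre powers of `𝒴/S`.** -/
theorem result (B : Type) [Fintype B] (Y : HodgeSpace B) :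
    CharactersAreSmall Y ∧
      ForAllOutside Y.charSpace (fun _ _ X => FamiliesOnAllPowers X Y) :=
  ⟨charactersAreSmall Y, forAllOutside_var Y⟩

end Pool.Agent.Results.MP_e9c0f3_ag.AllPowersWithCM
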