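import Pool.Agent.H842.CW.Vhc2

/-!
# The variational Hodge conjecture for the fibre powers of families of cyclic coverings, times an
# arbitrary family

Let `S` be the base, `Z → S` an **arbitrary** smooth projective family, and let `X_i → S`,
`i = 1, …, r`, be families of cyclic coverings `X_i → Y_i` of smooth projective varieties, branched
along members of linear systems (the simplest case: the hypersurfaces `w ^ d = F (x_0, …, x_n)` in a
weighted projective space, where `F` is homogeneous of degree `d m`). The base may be a curve; its
universal covering is the set `U`, over which the local systems are constant. Let `T` be the covering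
transformation, and let `V_i` be the part of the cohomology of `X_i` on which `T` has no eigenvalue
`1` or `- 1`. When the branch divisor acquires an ordinary double point, the monodromy is `± T` on
the space `ℚ[T] δ` generated by the vanishing cycle and `1` on its orthogonal complement (Pham): this
is the hypothesis `HasReflection`, **one** such degeneration for each `i` is enough.

A flat class is a global section of the local system of the cohomology of the fibres, over some
finite covering of `S`. By the theorem of the fixed part (Deligne) a flat class which is algebraic at
one point is a Hodge class at all points (`IsFlatHodge`). The variational Hodge conjecture says that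
flat classes which are algebraic at the point `u` are algebraic at all points `v`.

(1) Suppose that the monodromy and Mumford-Tate groups of `Z` have no characters, for instance that
`Z` is a point, and that the `X_i` are coverings of projective spaces (of any dimensions) of
different degrees `q_i`, each of which is `4` or an odd prime number, and that none of them is a cubic
surface. Then the variational Hodge conjecture for `Z` implies the variational Hodge conjecture for
all classes on all fibre products of any numbers of copies of the `X_i` and of `Z`, as far as the
`V_i` are concerned (if the `q_i` are odd these are all classes).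

(2) More generally this holds if `Z` has no characters and there is no numerical relation between
the eigenspaces `V_(i, b)` of `T`, that is, no `V_(i 1, b 1), …, V_(i r, b r)`, none opposite, with
`S (i 1) (t b 1) + ⋯ + S (i r) (t b r) = 0` for all `t` prime to `d`, where
`S i b = ∑ (r - q) h^(r, q)` for `V_(i, b)`.

(3) It holds for an arbitrary family `Z` and arbitrary families of cyclic coverings for the classes
which involve `V_i` fewer times than the dimension of each eigenspace of `T` in `V_i`. For instance
`Z` may be a constant family: then it is true for all such classes, for every smooth projective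
variety `Z`.

So flat classes on all fibre powers of the families of cyclic coverings of projective spaces of odd
prime degree are algebraic on **all** smooth fibres: in all cases the flat Hodge classes are
combinations of products of the classes of the graphs of the powers of `T` (the forms
`Q_i (v, T ^ a w)`) and of flat Hodge classes on `Z`.

The proof. The Lie algebra generated by the Hodge operators of all fibres is normalized by the
monodromy, and contains enough by the theory of complex reflections; so flat Hodge classes are
invariants of the centralizer of `T` in the orthogonal or symplectic group, up to determinants, and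
these have nonzero weights (generalized Bernoulli numbers). The coefficients in the expansion of a
flat class with respect to products of graphs are contractions of this class with products of graphs,
as the contraction is a definite form on the space spanned by these products (Hodge-Riemann
relations). Therefore the coefficients are algebraic at the point `u` if the class is.
-/

namespace Pool.Agent.Results.MP_e9c0f3_ag.CyclicCoversTimesFamily

open Pool.Agent.TH125.Nod Pool.Agent.H842.CR Pool.Agent.H842.CW Finset

/-- The degrees `q i` are different from each other, each of them is four or an odd prime number, and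
none of the coverings (of degree `q i` of a projective space of dimension `n i ≥ 1`, branched along a
hypersurface of degree `q i * m i`) is a cubic surface. -/
def Good {ι : Type} (q m n : ι → ℕ) : Prop :=
  Function.Injective q ∧ ∀ i, (q i = 4 ∨ (q i).Prime ∧ q i ≠ 2) ∧ 0 < m i ∧ 0 < n i ∧
    ¬ (n i = 2 ∧ q i * m i = 3)

/-- `x` and `y` are variations of rational Hodge structure on `V = ⊕ V_i` and on `D` over `U`, `V`
is polarized and has an automorphism `T` of finite order without the eigenvalues `1` and `- 1`, for
each `i` some monodromy operator acts on `V_i` by the Picard-Lefschetz formula of cyclic coverings,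
and `A`, `A0` are the algebraic classes on the fibres. Let `f` be a flat Hodge class on
`V × ⋯ × V × D`. Suppose that `D` has no characters, and that

(1) `V_i` is (as a Hodge structure with automorphism) the part without the eigenvalue `- 1` of the
primitive cohomology of a cyclic covering of degree `q i` of a projective space of dimension `n i`,
branched along a smooth hypersurface of degree `q i * m i`, where the `q i` are different from each
other, each of them is `4` or an odd prime, and none of the coverings is a cubic surface; or

(2) there are no eigenspaces `V_(i 1, b 1), …, V_(i r, b r)` of `T`, `r > 0`, none opposite, with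
`S (i 1) (t b 1) + ⋯ + S (i r) (t b r) = 0` for all units `t` modulo `d`, where
`S i b = ∑ (r - q) h^(r, q)` for the eigenspace of `exp (2 π √-1 b / d)` in `V_i`.

Or suppose that (3) `f` involves fewer variables from `V_i` than the dimension of each eigenspace of
`T` in `V_i`, for each `i` (and `D` is arbitrary).

Then `f` is a combination of products of the forms `Q_i (v, T ^ a w)` and of flat Hodge classes on
`D`; and if `f` is algebraic at `u` and the variational Hodge conjecture holds for `D`, then `f` is
algebraic at `v`. -/
theorem result {E : Type} [NormedAddCommGroup E] [NormedSpace ℂ E] {U : Set E}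
    (hU : IsConnected U) {ι B D : Type} [Fintype ι] [DecidableEq ι] [Fintype B] [DecidableEq B]
    [Fintype D] [DecidableEq D] (κ : B → ι) (s : ι → ℤ) (Q T : Matrix B B ℚ) (d : ℕ)
    (x : E → Matrix B B ℂ) (y : E → Matrix D D ℂ) (hV : IsVHS U x) (hD : IsVHS U y)
    (hP : IsPolarized U κ s Q x) (hT : IsAut U κ Q x T d)
    (hR : ∀ i, HasReflection U κ Q x y T i)
    (A : E → ∀ k : ℕ, Submodule ℚ ((Fin k → B) → D → ℚ)) (A0 : E → Submodule ℚ (D → ℚ))
    (hA : IsCycles U κ Q T A A0) (k : ℕ) (f : (Fin k → B) → D → ℚ) (hf : IsFlatHodge U x y f)
    (hcases : (NoChar U y ∧ ∃ u ∈ U,
        ((∃ q m n : ι → ℕ, Good q m n ∧ IsCover κ T (x u) q m n) ∨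
          ∃ S : ι → ZMod d → ℚ, HasHodgeSums κ T (x u) d S ∧ NoRelation κ T d S)) ∨
      ∀ (i : ι) (z : ℂ), eigenpart κ T i z ≠ ⊥ → ∀ J, f J ≠ 0 →
        (univ.filter fun j => κ (J j) = i).card < Module.finrank ℂ (eigenpart κ T i z)) :
    f ∈ Submodule.span ℚ {g | ∃ (m : ℕ) (e : Fin m × Fin 2 ≃ Fin k) (c : Fin m → ι)
      (a : Fin m → ℕ) (h : D → ℚ), IsFlatHodgeD U y h ∧
        g = fun J l => formT κ Q T e c a J * h l} ∧
    ∀ u ∈ U, ∀ v ∈ U, VariationalD U y A0 u v → f ∈ A u k → f ∈ A v k := by
  obtain ⟨u0, hu0⟩ := hU.nonempty
  have hact : ∀ u ∈ U, act (x u, y u) (cx f) = 0 := fun u hu => act_of_hodge hV hD hu (hf u hu)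
  have key : (∀ l, (fun J => f J l) ∈ P0T κ Q T k) ∧ (∀ a ∈ mm U x y, act a f = 0) ∧
      IsLie κ Q (mm U x y) ∧ ∀ a ∈ mm U x y, a.1 * T = T * a.1 := by
    rcases hcases with ⟨hN, u1, hu1, hC⟩ | hcount
    · have hC' : (∃ u ∈ U, ∃ S : ι → ZMod d → ℚ, HasHodgeSums κ T (x u) d S ∧
          NoRelation κ T d S) ∨ ∃ q : ι → ℕ, (∀ i, q i = 4 ∨ (q i).Prime ∧ q i ≠ 2) ∧
          Function.Injective q ∧
          ((∃ C : ι → ℚ, (∀ i, C i ≠ 0) ∧ ∃ u ∈ U, HasSawTypes κ T (x u) q C) ∨
            ∃ m n : ι → ℕ, (∀ i, 0 < m i ∧ 0 < n i ∧ ¬ (n i = 2 ∧ q i * m i = 3)) ∧
              ∃ u ∈ U, IsCover κ T (x u) q m n) := by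
        rcases hC with ⟨q, m, n, hg, hcov⟩ | ⟨S, hS, hNR⟩
        · exact Or.inr ⟨q, fun i => (hg.2 i).1, hg.1, Or.inr ⟨m, n, fun i => (hg.2 i).2,
            u1, hu1, hcov⟩⟩
        · exact Or.inl ⟨u1, hu1, S, hS, hNR⟩
      obtain ⟨S, hS, hNR⟩ := norel_of_cases hT hC'
      exact gen_norel hV hP hT hR hu0 hact hN hS hNR
    · exact gen_small hV hP hT hR hu0 hact hcount
  obtain ⟨h1, h2, h3, h4⟩ := key
  exact ⟨gen_core h3 h4 h1 h2, fun u hu v hv hZ hfu =>
    vhc_core hu hv hV hP h3 h4 hA hZ h1 h2 hfu⟩

end Pool.Agent.Results.MP_e9c0f3_ag.CyclicCoversTimesFamily
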