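import Mathlib
import Pool.Agent.H855.HG.Vectors
import Pool.Agent.H855.HG.Var

/-!
# The variational Hodge conjecture on the products of **every** family with the varieties of CM type:
finitely many exceptional vectors

Let `K i` (`i` in any set `I`) be CM fields, for instance **all** CM fields. A function `v` on the
complex embeddings of a field is odd if `v (conj φ) = - v φ`. A CM type `Φ` of `K i` is the same
thing as the odd function `x` with the value `1` on `Φ` and `- 1` on the conjugate embeddings. Let
`w i / 2` be a lower bound for the dimensions of the nonzero spaces of odd rational functions on the
embeddings of `K i` which are stable under the automorphisms of `ℂ`: `w i = 2` is always possible,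
and `w i = [K i : ℚ]` if the space of all odd functions is irreducible (`IsWeight`).

Let `π : 𝒴 → S` be a smooth projective morphism, `S` a smooth connected quasi-projective variety,
and let `N` be the space of the global sections of the local systems `R^m π_* ℚ` (all `m`). By the
theorem of the fixed part (Deligne) it has a Hodge structure, which does not depend on the point `s`
of `S`, such that the restrictions `N → H(𝒴_s, ℚ)` are morphisms. Below `N` is called the fixed part
of `𝒴/S`, and it plays the role of the cohomology of `Y`. Each `s` gives a space of Hodge classes in
`N` of codimension `k`, the sections with an algebraic value on `𝒴_s`, and question 1 asks if these
spaces are the same for all `s`.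

**Types.** Let `Y` be a smooth projective complex variety. The Hodge operator on its cohomology is
the multiplication by `p - q` on `H^(p, q)` (`HodgeSpace`). A vector `w` of `H(Y, ℂ)` has the types
`d` if for each automorphism `σ` of the field `ℂ` the conjugate `σ w` (the conjugate of the
coordinates in a rational basis) is a sum of classes of types `(p, q)` with `p - q = d σ`
(`HasTypes`). These vectors generate the part of CM type of the cohomology (`cmPart`). The types of
a rational Hodge class are `d = 0`.

**The varieties `X`.** Let `x j` be integral odd functions on the complex embeddings of fields `L
j`, each one of the `K i`, `j` in a finite set. Let `X` be a smooth projective complex variety of CM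
type, that is with a commutative Mumford-Tate group; this means that `H(X, ℂ)` is generated by
vectors with types (`IsOfCMType`). We suppose that for all vectors with types `d` a multiple of `d`
is a sum `σ ↦ ∑ m (j, ψ) * x j (σ ψ)` over the embeddings `ψ` of the fields `L j` (`IsGeneratedBy`).
For instance `X` can be **any** abelian variety isogenous to a product of powers of the abelian
varieties of CM types `(L j, Φ j)`, or a variety whose cohomology is built from the cohomology of
such abelian varieties, like the Fermat hypersurfaces, or K3 surfaces with complex multiplication.
**Every** `X` of CM type is obtained in this way from suitable CM fields. The Hodge classes on `X`
can be exotic (not polynomials in divisor classes).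

**The theorem.** For every `Y` there is a finite set `E` of pairs `(i, v)`, where `v` is an odd
function, not zero, on the complex embeddings of `K i`, which depends only on the Hodge structure of
the fixed part of `𝒴/S` and the fields `K i`, with the following properties (`IsSmallFor`).

* The vectors `v` come from the types of the fixed part of `𝒴/S`: the functions `σ ↦ v (σ φ)` are
  linear combinations of the translates of the types `d` of one vector.
* `∑ w i + h ≤ c`, the sum over the elements `(i, v)` of `E`, where `h` is the dimension of the
  space of the Hodge classes, and `c` is the dimension of the part of CM type, of the fixed part of
  `𝒴/S`. So `E` has at most `(b - h) / 2` elements, where `b` is the dimension of the fixed part of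
  `𝒴/S` (the sum of the dimensions of the spaces of global sections), and `E` is **empty** if the
  part of CM type of the fixed part of `𝒴/S` consists of Hodge classes, or if `w i > b - h` for all
  `i`.
* For all families `x j` such that no vector `v` of `E` is a combination of the `x j`, and for
  **all** `X` as above, the following is true.
  1. The global sections for `X × 𝒴 → S` whose values are Hodge classes are the sums of products of
     Hodge classes on `X` and global sections for `𝒴 → S` whose values are Hodge classes
     (`IsHodgeOfProducts`).
  2. Let the Hodge conjecture be true for `X`. Then for each point `s` the algebraic classes on `X ×
     𝒴_s` which are values of global sections are **exactly** the sums of products of algebraic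
     classes on `X` and algebraic classes on `𝒴_s` which are values of global sections.
  3. Hence **the variational Hodge conjecture for `X × 𝒴 → S` in codimension `j` is true if and only
     if it is true for `𝒴 → S` in the codimensions `j - i`**, for all `i` such that there are
     nonzero Hodge classes of codimension `i` on `X` (`i ≤ dim X`); and it is true for `X × 𝒴 → S`
     in all codimensions if and only if it is true for `𝒴 → S` in all codimensions
     (`VariationalOnProducts`).

A vector `v` on the embeddings of a field `K` is a combination of the `x j` (`IsComb`) if it is the
sum of the images of the `x j` under equivariant maps: `v φ = ∑ t φ (j, ψ) * x j ψ` with rational
numbers `t φ (j, ψ)` which are invariant under the automorphisms of `ℂ`, odd in `ψ`, and zero if the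
fields `K` and `L j` are unrelated (there are no nonzero equivariant maps between their odd
functions). So if the fields of the elements of `E` are unrelated to the `L j` the condition is
satisfied; and if the odd functions on the embeddings of `K i` are absolutely irreducible an element
`(i, v)` excludes at most one CM type `Φ` of `K i` and its conjugate, for the varieties `X`
generated by one CM type of `K i`. (Exceptions are necessary: `X` and `Y` can have common simple
factors of their cohomology, and then there are Hodge classes on `X × Y` which are not sums of
products.)

The Hodge conjecture is known for many varieties of CM type, for instance for all nondegenerate
abelian varieties of CM type, for the products of elliptic curves, for many Fermat varieties, and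
for some `X` with exotic Hodge classes. If the fibres of `𝒴 → S` have dimension at most three, the
variational Hodge conjecture for `𝒴 → S` is true, and then it follows for these `X × 𝒴 → S`,
although the Hodge classes on the fibres `X × 𝒴_s` are not known to be algebraic.

The results `AllCMTypesTimesFamily` (library) and `SmallCoreFields` of this run are about products
of copies of the abelian varieties of almost all CM types, respectively of nondegenerate CM types of
special fields, and families unrelated to the fields. Here there is no condition on the CM types and
on the family besides the one that finitely many vectors are not combinations; instead the Hodge
conjecture for `X` is supposed (for nondegenerate CM types it is true).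

The framework (`FamilyTimes`): the algebraic classes on `X`, the global sections which are algebraic
at the point `s`, for `𝒴 → S` and for `X × 𝒴 → S`; they are Hodge classes, products of algebraic
classes are algebraic, and the contraction (`contract`: the push-forward to `𝒴_s` of the product
with the pull-back) of an algebraic class on `X × 𝒴_s` with an algebraic class on `X` is algebraic.
The intersection form is nondegenerate on the Hodge classes on `X` (`IsPerfect`; this is a theorem,
by the bilinear relations of Hodge and Riemann).

The proof. The spaces of the vectors with given types `d`, for different `d`, are linearly
independent, since they are common eigenspaces of the operators `σ⁻¹ z σ`, where `z` is the Hodge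
operator; so there are only finitely many `d` for `Y`, at most `c - h` nonzero ones
(`typeSpace_indep`, `card_types`). Take a basis `e k` of `H(X, ℂ)` of vectors with types `d k`, and
write a Hodge class on `X × Y` as `∑ e k ⊗ y k`. Since it is rational its conjugates are the same
class `∑ σ (e k) ⊗ σ (y k)`, so that the `y k` have the types `- d k` (`kunneth`). Some multiple of
`d k` is a sum of values `x j (σ ψ)`; since the functions `x j` are odd, `- d k` is the value of an
odd relation with rational coefficients. For each `d` up to translation which is such a value for
some family, there is one vector `v` (`exists_vector`) whose translates are combinations of the
translates of `d`; and if another family has `d` as a value of a relation then `v` is a combination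
of that family (`isComb_of`: one projects orthogonally to the space of the trivial relations). So
outside of the exceptional vectors `d k = 0` or `y k = 0` for all `k`. Then the class is killed by
the Hodge operators of both factors, and it is a sum of products of Hodge classes. The estimate: the
translates of `d` generate a space of dimension at least `w i / 2`, and they come in pairs `d`, `-
d` (`two_finrank_le`).
-/

set_option autoImplicit false

namespace Pool.Agent.Results.MP_e9c0f3_ag.TimesCMVarieties

open NumberField Pool.Agent.H855.CM Pool.Agent.H855.HG

/-- **For every family `𝒴 → S` with the fixed part `N`: flat Hodge classes on `X × 𝒴 → S` are sums of
products, and the variational Hodge conjecture for `X × 𝒴 → S` is true if and only if it is true for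
`𝒴 → S`, for all varieties `X` of CM type which satisfy the Hodge conjecture, outside of finitely many
exceptional vectors.** -/
theorem result {I : Type} (K : I → Type) [∀ i, Field (K i)] [∀ i, NumberField (K i)]
    [∀ i, IsCMField (K i)] (w : I → ℕ) (hw : ∀ i, IsWeight (K i) (w i)) (B : Type) [Fintype B]
    (N : HodgeSpace B) :
    ∃ E : Finset (Σ i, ((K i →+* ℂ) → ℝ)), IsSmallFor w N E ∧
      ForAllOfCMType K E (fun _ _ X => IsHodgeOfProducts X N ∧ VariationalOnProducts X N) := by
  obtain ⟨E, hE, h⟩ := exists_vectors K w hw N
  exact ⟨E, hE, h _ fun _ _ X hX => ⟨hX, variationalOnProducts hX⟩⟩

end Pool.Agent.Results.MP_e9c0f3_ag.TimesCMVarieties
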